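import Pool.Agent.H62.MackeyMain
import Mathlib.Topology.Metrizable.Basic

set_option autoImplicit false

namespace Pool.Agent.Results.MP_44d3b9_gt.NoPrecompactMackey

open Pool.Agent.H62.Mackey

/-- No metrizable precompact Hausdorff group topology on the integers is Mackey.  In particular
none without proper open subgroups is, so the answer to Q1 is negative. -/
theorem result (τ : TopologicalSpace ℤ) (hgroup : IsGroupTopology τ)
    (hmetr : @TopologicalSpace.MetrizableSpace ℤ τ) (hprec : Precompact τ) : ¬ IsMackey τ := by
  have h1 : @FirstCountableTopology ℤ τ :=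
    @TopologicalSpace.PseudoMetrizableSpace.firstCountableTopology ℤ τ
      (@TopologicalSpace.MetrizableSpace.toPseudoMetrizableSpace ℤ τ hmetr)
  exact main τ hgroup (@FirstCountableTopology.nhds_generated_countable ℤ τ h1 0) hprec

end Pool.Agent.Results.MP_44d3b9_gt.NoPrecompactMackey
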